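import Pool.Agent.TN.Main3

/-!
`t_n` has the order of the largest prime factor `P n` for almost all `n`.

`Works n t` : some nonempty `S ⊆ {n+1, …, n+t}` makes `n * ∏ S` a perfect square.
`tn n`      : the least positive `t` with `Works n t`.
`P n`       : the largest prime factor of `n` (`0` for `n = 0, 1`).
-/

namespace Pool.Agent.Results.MP_51b47a_nt.AlmostAll

open Pool.Agent.TN

/-- Sanity check: `tn n` is the least positive `t` with the square property. -/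
lemma tn_isLeast (n : ℕ) (hn : 1 ≤ n) :
    IsLeast {t : ℕ | 0 < t ∧ ∃ S : Finset ℕ, S.Nonempty ∧ S ⊆ Finset.Icc (n + 1) (n + t) ∧
      IsSquare (n * ∏ a ∈ S, a)} (tn n) :=
  ⟨tn_spec hn, fun _ ht => tn_le ht.1 ht.2⟩

/-- Sanity check: `P n` is the largest prime dividing `n`. -/
lemma P_isGreatest (n : ℕ) (hn : 2 ≤ n) : IsGreatest {p : ℕ | p.Prime ∧ p ∣ n} (P n) :=
  ⟨⟨P_prime hn, P_dvd hn⟩, fun _ hp =>
    le_P (Nat.mem_primeFactors.mpr ⟨hp.1, hp.2, by omega⟩)⟩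

/-- For all real `C ≥ 2` and all `N ≥ exp (24 C²)`, all but at most `32 (log C / C) N` of the
integers `1 ≤ n ≤ N` satisfy `P n ≤ t_n ≤ C · P n`. -/
theorem result (C : ℝ) (hC : 2 ≤ C) (N : ℕ) (hN : Real.exp (24 * C ^ 2) ≤ N) :
    ({n | (1 ≤ n ∧ n ≤ N) ∧ ¬ (P n ≤ tn n ∧ (tn n : ℝ) ≤ C * P n)}.ncard : ℝ) ≤
      32 * (Real.log C / C) * N :=
  tail C hC N hN

end Pool.Agent.Results.MP_51b47a_nt.AlmostAll
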