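import Mathlib
import Pool.Agent.SSQ.Dual

set_option autoImplicit false

/-!
A power saving in Selfridge's upper bound for `t_n`, for smooth `n` and for squares.

`Works n t` : some nonempty `S ⊆ {n+1, …, n+t}` makes `n * ∏ S` a perfect square.
`tn n`      : the least positive `t` with `Works n t`.
-/

namespace Pool.Agent.Results.MP_51b47a_nt.BelowSqrt

open Pool.Agent.TN Pool.Agent.SSQ Finset

theorem isSquare_of_four_mul {y : ℕ} (h : IsSquare (4 * y)) : IsSquare y := by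
  obtain ⟨r, hr⟩ := h
  have h2 : 2 ∣ r := by
    have h3 : 2 ∣ r * r := by rw [← hr]; exact ⟨2 * y, by ring⟩
    rcases Nat.prime_two.dvd_mul.1 h3 with h4 | h4 <;> exact h4
  obtain ⟨s, rfl⟩ := h2
  exact ⟨s, by nlinarith⟩

/-- For every `δ > 0` there is `σ > 0` such that `t_n ≤ n ^ (1 / 2 - σ)` for all large `n` all of
whose prime factors with odd exponent are at most `n ^ (1 / 10 - δ)`. -/
theorem result (δ : ℝ) (hδ : 0 < δ) : ∃ σ : ℝ, 0 < σ ∧ ∃ n0 : ℕ, ∀ n : ℕ, n0 ≤ n →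
    (∀ p : ℕ, p.Prime → Odd (n.factorization p) → (p : ℝ) ≤ (n : ℝ) ^ (1 / 10 - δ)) →
    (tn n : ℝ) ≤ (n : ℝ) ^ (1 / 2 - σ) := by
  obtain ⟨d, hd⟩ : ∃ d : ℝ, d = min δ (1 / 20) := ⟨_, rfl⟩
  have hd0 : 0 < d := by rw [hd]; exact lt_min hδ (by norm_num)
  have hd1 : d ≤ δ := by rw [hd]; exact min_le_left _ _
  have hd2 : d ≤ 1 / 20 := by rw [hd]; exact min_le_right _ _
  obtain ⟨σ, hσ0, hσ1, x0, hx01, h⟩ := exists_square_set hd0
  have hlim := (tendsto_rpow_atTop (half_pos hσ0)).comp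
    (tendsto_natCast_atTop_atTop (R := ℝ))
  obtain ⟨n1, hn1⟩ := Filter.eventually_atTop.1 (hlim.eventually_ge_atTop (5 : ℝ))
  obtain ⟨n2, hn2⟩ := exists_nat_ge x0
  refine ⟨σ / 2, half_pos hσ0, max (max n1 n2) (2 ^ 20), ?_⟩
  intro n hn hp
  have hn1' : n1 ≤ n := le_trans (le_trans (le_max_left _ _) (le_max_left _ _)) hn
  have hn2' : n2 ≤ n := le_trans (le_trans (le_max_right _ _) (le_max_left _ _)) hn
  have hn3 : 2 ^ 20 ≤ n := le_trans (le_max_right _ _) hn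
  have h5 : (5 : ℝ) ≤ (n : ℝ) ^ (σ / 2) := hn1 n hn1'
  have hnx : x0 ≤ n := hn2.trans (by exact_mod_cast hn2')
  have hn20 : (2 : ℝ) ^ 20 ≤ n := by exact_mod_cast hn3
  have hn0 : (0 : ℝ) < n := lt_of_lt_of_le (by positivity) hn20
  have hn1r : (1 : ℝ) ≤ n := le_trans (by norm_num) hn20
  have hnpos : 1 ≤ n := by exact_mod_cast hn1r
  -- the length
  obtain ⟨L, hL⟩ : ∃ L : ℝ, L = (n : ℝ) ^ (1 / 2 - σ) := ⟨_, rfl⟩
  have hL1 : 1 ≤ L := by
    rw [hL]; exact Real.one_le_rpow hn1r (by linarith)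
  obtain ⟨t₁, ht₁⟩ : ∃ t₁ : ℕ, t₁ = ⌊L⌋₊ := ⟨_, rfl⟩
  have ht1 : (t₁ : ℝ) ≤ L := by rw [ht₁]; exact Nat.floor_le (by linarith)
  have ht1' : L < t₁ + 1 := by rw [ht₁]; exact Nat.lt_floor_add_one L
  obtain ⟨t₂, ht₂⟩ : ∃ t₂ : ℕ, t₂ = ⌊2 * L⌋₊ := ⟨_, rfl⟩
  have ht2 : (t₂ : ℝ) ≤ 2 * L := by rw [ht₂]; exact Nat.floor_le (by linarith)
  have hfin : ((t₁ + 1 + t₂ : ℕ) : ℝ) ≤ (n : ℝ) ^ (1 / 2 - σ / 2) := by
    push_cast
    calc (t₁ : ℝ) + 1 + t₂ ≤ 5 * L := by linarith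
      _ ≤ (n : ℝ) ^ (σ / 2) * L := by gcongr
      _ = (n : ℝ) ^ (1 / 2 - σ / 2) := by
          rw [hL, ← Real.rpow_add hn0]; congr 1; ring
  suffices hw : Works n (t₁ + 1 + t₂) by
    have := tn_le (by omega) hw
    calc (tn n : ℝ) ≤ ((t₁ + 1 + t₂ : ℕ) : ℝ) := by exact_mod_cast this
      _ ≤ _ := hfin
  -- first window, for `n`
  obtain ⟨S₀, hS₀, hsq₀⟩ := h n hnx n hnpos (fun p hpp hodd =>
    (hp p hpp hodd).trans (Real.rpow_le_rpow_of_exponent_le hn1r (by linarith)))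
  rw [← hL] at hS₀
  have hmem : ∀ a ∈ win (n : ℝ) L, n + 1 ≤ a ∧ a ≤ n + t₁ := by
    intro a ha
    obtain ⟨h1, h2⟩ := mem_win.1 ha
    constructor
    · have : n < a := by exact_mod_cast h1
      omega
    · have h3 : (a : ℝ) < ((n + t₁ + 1 : ℕ) : ℝ) := by push_cast; linarith
      have : a < n + t₁ + 1 := by exact_mod_cast h3
      omega
  rcases S₀.eq_empty_or_nonempty with hemp | hne
  · -- `n` is a square: two disjoint windows for `2`
    rw [hemp, prod_empty, mul_one] at hsq₀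
    have hodd2 : ∀ x : ℝ, (n : ℝ) ≤ x → ∀ p : ℕ, p.Prime → Odd (Nat.factorization 2 p) →
        (p : ℝ) ≤ x ^ (1 / 10 - d) := by
      intro x hx p hpp hodd
      have hp2 : p = 2 := by
        by_contra hne
        rw [Nat.Prime.factorization Nat.prime_two, Finsupp.single_apply,
          if_neg (fun h => hne h.symm)] at hodd
        exact absurd hodd (by decide)
      rw [hp2]
      push_cast
      calc (2 : ℝ) = ((2 : ℝ) ^ 20) ^ ((1 : ℝ) / 20) := by
            rw [← Real.rpow_natCast, ← Real.rpow_mul (by norm_num)]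
            norm_num
        _ ≤ x ^ ((1 : ℝ) / 20) := by
            apply Real.rpow_le_rpow (by positivity) (hn20.trans hx) (by norm_num)
        _ ≤ x ^ (1 / 10 - d) :=
            Real.rpow_le_rpow_of_exponent_le (hn1r.trans hx) (by linarith)
    obtain ⟨A, hA, hsqA⟩ := h n hnx 2 (by norm_num) (hodd2 n le_rfl)
    rw [← hL] at hA
    obtain ⟨x, hx⟩ : ∃ x : ℝ, x = ((n + t₁ : ℕ) : ℝ) := ⟨_, rfl⟩
    have hxn : (n : ℝ) ≤ x := by rw [hx]; push_cast; linarith [(Nat.cast_nonneg t₁ : (0:ℝ) ≤ t₁)]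
    have hLn : L ≤ n := by
      rw [hL]
      calc (n : ℝ) ^ (1 / 2 - σ) ≤ (n : ℝ) ^ (1 : ℝ) :=
            Real.rpow_le_rpow_of_exponent_le hn1r (by linarith)
        _ = n := Real.rpow_one _
    have hx2n : x ≤ 2 * n := by rw [hx]; push_cast; linarith
    have hxL : x ^ (1 / 2 - σ) ≤ 2 * L := by
      calc x ^ (1 / 2 - σ) ≤ (2 * (n : ℝ)) ^ (1 / 2 - σ) :=
            Real.rpow_le_rpow (by linarith) hx2n (by linarith)
        _ = 2 ^ (1 / 2 - σ) * (n : ℝ) ^ (1 / 2 - σ) := Real.mul_rpow (by norm_num) hn0.le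
        _ ≤ 2 ^ (1 : ℝ) * (n : ℝ) ^ (1 / 2 - σ) := by
            gcongr
            · norm_num
            · linarith
        _ = 2 * L := by rw [hL, Real.rpow_one]
    obtain ⟨B, hB, hsqB⟩ := h x (hnx.trans hxn) 2 (by norm_num) (hodd2 x hxn)
    have hmemB : ∀ a ∈ B, n + t₁ + 1 ≤ a ∧ a ≤ n + t₁ + t₂ := by
      intro a ha
      obtain ⟨h1, h2⟩ := mem_win.1 (hB ha)
      constructor
      · rw [hx] at h1
        have : n + t₁ < a := by exact_mod_cast h1
        omega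
      · have h3 : (a : ℝ) - ((n + t₁ : ℕ) : ℝ) ≤ 2 * L := by rw [← hx]; linarith
        have h4 : n + t₁ ≤ a := by
          rw [hx] at h1
          have : n + t₁ < a := by exact_mod_cast h1
          omega
        rw [← Nat.cast_sub h4] at h3
        have h5 := Nat.le_floor h3
        rw [← ht₂] at h5
        omega
    have hAne : A.Nonempty := by
      by_contra hemp'
      rw [not_nonempty_iff_eq_empty] at hemp'
      rw [hemp', prod_empty, mul_one] at hsqA
      exact absurd hsqA (Nat.prime_two.prime.irreducible.not_isSquare)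
    have hdis : Disjoint A B := by
      rw [Finset.disjoint_left]
      intro a ha hb
      have h1 := hmem a (hA ha)
      have h2 := hmemB a hb
      omega
    refine ⟨A ∪ B, hAne.mono subset_union_left, ?_, ?_⟩
    · intro a ha
      rw [mem_Icc]
      rcases mem_union.1 ha with h1 | h1
      · have := hmem a (hA h1)
        omega
      · have := hmemB a h1
        omega
    · rw [prod_union hdis]
      apply IsSquare.mul hsq₀
      apply isSquare_of_four_mul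
      have e1 : 4 * ((∏ a ∈ A, a) * ∏ a ∈ B, a) = (2 * ∏ a ∈ A, a) * (2 * ∏ a ∈ B, a) := by ring
      rw [e1]
      exact hsqA.mul hsqB
  · refine ⟨S₀, hne, ?_, hsq₀⟩
    intro a ha
    have := hmem a (hS₀ ha)
    rw [mem_Icc]
    omega

end Pool.Agent.Results.MP_51b47a_nt.BelowSqrt
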