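import Pool.Agent.TNX.ScFin
import Pool.Agent.TNA.Dens
import Pool.Agent.TNA.Unif

/-!
The size of `t_n`: a lower bound `F(n) ≤ t_n` for every nonsquare `n`, and the exact formula
`t_n = F(n) = k(n) P(n)` for almost all `n` on every scale.

`Works n t` : some nonempty `S ⊆ {n+1, …, n+t}` makes `n * ∏ S` a perfect square.
`tn n`      : the least positive `t` with `Works n t`.
`P n`       : the largest prime factor of `n` (`0` for `n = 0, 1`).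
`kk n`      : the least `k ≥ 1` such that no prime factor of `n / P n + k` exceeds `P n`.
`Pd n`      : the largest prime with an odd exponent in `n` (`0` if there is none).
`F n`       : the least `t` such that some `a ∈ (n, n + t]` is divisible by `Pd n` to an odd power
              and `Pd a ≤ t`.
-/

namespace Pool.Agent.Results.MP_51b47a_nt.ExactFormula

open Pool.Agent.TN Pool.Agent.TNX Pool.Agent.TNA

/-- Sanity check: `tn n` is the least positive `t` with the square property. -/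
lemma tn_isLeast (n : ℕ) (hn : 1 ≤ n) :
    IsLeast {t : ℕ | 0 < t ∧ ∃ S : Finset ℕ, S.Nonempty ∧ S ⊆ Finset.Icc (n + 1) (n + t) ∧
      IsSquare (n * ∏ a ∈ S, a)} (tn n) :=
  ⟨tn_spec hn, fun _ ht => tn_le ht.1 ht.2⟩

/-- Sanity check: `P n` is the largest prime dividing `n`. -/
lemma P_isGreatest (n : ℕ) (hn : 2 ≤ n) : IsGreatest {p : ℕ | p.Prime ∧ p ∣ n} (P n) :=
  ⟨⟨P_prime hn, P_dvd hn⟩, fun _ hp =>
    le_P (Nat.mem_primeFactors.mpr ⟨hp.1, hp.2, by omega⟩)⟩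

/-- Sanity check: `kk n` is the least `k ≥ 1` such that all prime factors of `n / P n + k` are at
most `P n`. -/
lemma kk_isLeast (n : ℕ) (hn : 2 ≤ n) :
    IsLeast {k : ℕ | 0 < k ∧ ∀ q : ℕ, q.Prime → q ∣ n / P n + k → q ≤ P n} (kk n) := by
  refine ⟨⟨(kk_spec hn).1, fun q hq hd => ?_⟩, fun k hk => ?_⟩
  · have h0 := (kk_spec hn).1
    exact (le_P (Nat.mem_primeFactors.mpr
      ⟨hq, hd, Nat.ne_of_gt (Nat.add_pos_right _ h0)⟩)).trans (kk_spec hn).2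
  · refine kk_le hk.1 ?_
    unfold P
    apply Finset.sup_le
    intro q hq
    exact hk.2 q (Nat.prime_of_mem_primeFactors hq) (Nat.dvd_of_mem_primeFactors hq)

/-- Sanity check: for a nonsquare `n`, `Pd n` is the largest prime with an odd exponent in `n`. -/
lemma Pd_isGreatest (n : ℕ) (hn : 1 ≤ n) (hsq : ¬ IsSquare n) :
    IsGreatest {p : ℕ | p.Prime ∧ Odd (n.factorization p)} (Pd n) :=
  ⟨Pd_spec hn hsq, fun _ hp => le_Pd hp.2⟩

/-- Sanity check: `F n` is the least `t` of its definition. -/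
lemma F_isLeast (n : ℕ) (hn : 1 ≤ n) (hsq : ¬ IsSquare n) :
    IsLeast {t : ℕ | ∃ a, n < a ∧ a ≤ n + t ∧ Odd (a.factorization (Pd n)) ∧ Pd a ≤ t} (F n) :=
  ⟨F_spec hn hsq, fun _ ⟨_, h1, h2, h3, h4⟩ => F_le h1 h2 h3 h4⟩

theorem result :
    -- (1) the lower bound for all nonsquares
    (∀ n : ℕ, 1 ≤ n → ¬ IsSquare n → F n ≤ tn n) ∧
    -- (2) the exact formula for almost all `n`
    (∀ ε : ℝ, 0 < ε → ∃ K N0 : ℕ, ∀ N : ℕ, N0 ≤ N →
      ({n : ℕ | (1 ≤ n ∧ n ≤ N) ∧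
        ¬ (tn n = kk n * P n ∧ F n = tn n ∧ kk n ≤ K)}.ncard : ℝ) ≤ ε * N) ∧
    -- (3) the same on every scale
    (∀ (k : ℕ) (ε : ℝ), 0 < ε → ∃ K y0 : ℕ, ∀ y N : ℕ, y0 ≤ y → N ≤ y ^ k →
      ({n : ℕ | ((1 ≤ n ∧ n ≤ N) ∧ y < 4 * P n ∧ P n ≤ y) ∧
          ¬ (tn n = kk n * P n ∧ F n = tn n ∧ kk n ≤ K)}.ncard : ℝ) ≤
        ε * ({n : ℕ | (1 ≤ n ∧ n ≤ N) ∧ y < 4 * P n ∧ P n ≤ y}.ncard : ℝ)) ∧
    -- (4) rates, for `F`, explicit and uniform in the scale `T` and in `N`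
    (∀ T η : ℝ, 16 ≤ T → 0 < η → η ≤ 1 → ∀ N : ℕ,
      ({n : ℕ | (1 ≤ n ∧ n ≤ N) ∧ ¬ IsSquare n ∧ (T < F n ∧ (F n : ℝ) ≤ 2 * T) ∧
        (1 + η) * F n < tn n}.ncard : ℝ) ≤
        4 * 10 ^ 9 * (Real.log (Real.log T) / (η * Real.log T)) ^ 2 * N) ∧
    (∃ N₀ : ℕ, ∀ N : ℕ, N₀ ≤ N →
      ({n : ℕ | (1 ≤ n ∧ n ≤ N) ∧ ¬ (¬ IsSquare n ∧ F n ≤ tn n ∧
        (tn n : ℝ) ≤ (1 + 1 / (Real.log N) ^ ((1 : ℝ) / 10)) * F n)}.ncard : ℝ) ≤
        N / (Real.log N) ^ ((1 : ℝ) / 10)) := by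
  refine ⟨fun n hn hsq => F_le_tn hn hsq, fun _ hε => main hε, fun k _ hε => scale k hε,
    unif, ?_⟩
  obtain ⟨N₀, _, h⟩ := almost_all
  exact ⟨N₀, h⟩

end Pool.Agent.Results.MP_51b47a_nt.ExactFormula
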