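import Pool.Agent.TNY.Ds

/-!
The ratio `t_n / P(n)` exceeds every constant on a set of positive lower density.

`Works n t` : some nonempty `S ⊆ {n+1, …, n+t}` makes `n * ∏ S` a perfect square.
`tn n`      : the least positive `t` with `Works n t`.
`P n`       : the largest prime factor of `n` (`0` for `n = 0, 1`).
-/

namespace Pool.Agent.Results.MP_51b47a_nt.UnboundedRatio

open Pool.Agent.TN

/-- Sanity check: `tn n` is the least positive `t` with the square property. -/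
lemma tn_isLeast (n : ℕ) (hn : 1 ≤ n) :
    IsLeast {t : ℕ | 0 < t ∧ ∃ S : Finset ℕ, S.Nonempty ∧ S ⊆ Finset.Icc (n + 1) (n + t) ∧
      IsSquare (n * ∏ a ∈ S, a)} (tn n) :=
  ⟨tn_spec hn, fun _ ht => tn_le ht.1 ht.2⟩

/-- Sanity check: `P n` is the largest prime dividing `n`. -/
lemma P_isGreatest (n : ℕ) (hn : 2 ≤ n) : IsGreatest {p : ℕ | p.Prime ∧ p ∣ n} (P n) :=
  ⟨⟨P_prime hn, P_dvd hn⟩, fun _ hp =>
    le_P (Nat.mem_primeFactors.mpr ⟨hp.1, hp.2, by omega⟩)⟩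

/-- For every `K` there are `c > 0` and `N0` such that for all `N ≥ N0` at least `c N` of the
integers `1 ≤ n ≤ N` satisfy `t_n > K P(n)`. -/
theorem result (K : ℕ) : ∃ c : ℝ, 0 < c ∧ ∃ N0 : ℕ, ∀ N : ℕ, N0 ≤ N →
    c * N ≤ ({n : ℕ | (1 ≤ n ∧ n ≤ N) ∧ K * P n < tn n}.ncard : ℝ) :=
  TNY.unbounded K

end Pool.Agent.Results.MP_51b47a_nt.UnboundedRatio
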